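import Pool.Agent.Run7.h63.JP3

set_option autoImplicit false

/-!
# Coprime pairs with large Jacobsthal gaps

For `n ≥ 3` let `J n` be the largest gap between consecutive totatives of `n` below `n`. Erdős asked whether for infinitely
many `x` there are coprime `n₁ < n₂ < x` with `J n₁ > log x` and `J n₂ > log x`.

We show: for every real `C` there is `c > 0` such that for ALL large `x` there are coprime `n, m < x` with
`J n ≥ C log x` and `J m ≥ c log x · (log₄ x / log₃ x)`, where `log_j` is the `j`-th iterate of the logarithm. So one of the
two numbers can be taken with a gap of any multiple of `log x`, and the other one misses the asked size by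
the factor `c log₄ x / log₃ x` only.

Proof (`Agent/Run7/h63/JP1` to `JP3`): put `T = ⌈C log x⌉`, `v = log T log₃ T / (10 log₂ T)` and `Z = ⌊exp v⌋`. The
number `n` is the product of the primes up to a constant `w`, the primes in `(Z, T / K]` and some primes in
`(T, T ^ 2]`. The primes in `(Z, T / K]` all get the class `0`, what is left of `[1, T]` are the `Z`-smooth numbers,
of which there are at most `T / log T` by Rankin's estimate, and the numbers `j p`, `j < K`, with `p > T / K` prime. The primes
up to `w` reduce their number by the factor `∏ (1 - 1 / p)`, and the positions which are left are covered by one prime in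
`(T, T ^ 2]` each. The number `m` is the product of the primes in `(w, Z]`, with a greedy choice of the classes, and
other primes in `(T, T ^ 2]`, for the positions which are left.
-/

namespace Pool.Agent.Results.MP_1b1bb8_nt.CoprimePairsNearLog

open Filter

/-- `a < b` are consecutive totatives of `n` below `n`. -/
def Consecutive (n a b : ℕ) : Prop :=
  1 ≤ a ∧ a < b ∧ b < n ∧ a.Coprime n ∧ b.Coprime n ∧ ∀ c : ℕ, a < c → c < b → ¬ c.Coprime n

open Classical in
/-- The largest gap between consecutive totatives of `n` below `n` (`0` if there is no such gap). -/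
noncomputable def J (n : ℕ) : ℕ :=
  ((Finset.range n ×ˢ Finset.range n).filter (fun ab => Consecutive n ab.1 ab.2)).sup (fun ab => ab.2 - ab.1)

theorem result (C : ℝ) : ∃ c : ℝ, 0 < c ∧ ∀ᶠ x : ℕ in atTop, ∃ n m : ℕ, n < x ∧ m < x ∧ n.Coprime m ∧
    C * Real.log x ≤ J n ∧
    c * (Real.log x * Real.log (Real.log (Real.log (Real.log x))) / Real.log (Real.log (Real.log x))) ≤ J m := by
  obtain ⟨c, hc, x₀, h⟩ := Pool.Agent.Run7.h63.JP.main (max C 2) (le_max_right _ _)
  refine ⟨c, hc, ?_⟩
  filter_upwards [eventually_ge_atTop x₀, eventually_ge_atTop 1] with x hx hx1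
  obtain ⟨n, m, h1, h2, h3, h4, h5⟩ := h x hx
  refine ⟨n, m, h2, h3, h1, ?_, h5⟩
  refine le_trans ?_ h4
  apply mul_le_mul_of_nonneg_right (le_max_left _ _)
  exact Real.log_nonneg (by exact_mod_cast hx1)

end Pool.Agent.Results.MP_1b1bb8_nt.CoprimePairsNearLog
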